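import Mathlib

open Filter Topology

namespace Pool.Agent.Results.MP_2e7467_an.GAS

/-- `y m = x (m - k)`: nonnegative initial values `y 0, …, y k` and the recurrence. -/
def IsSol (k : ℕ) (A : ℝ) (β B : Fin (k + 1) → ℝ) (y : ℕ → ℝ) : Prop :=
  (∀ j ≤ k, 0 ≤ y j) ∧
    ∀ n, y (n + k + 1) = (∑ i, β i * y (n + k - i)) / (A + ∑ i, B i * y (n + k - i))

/-- `p` is the least positive period of `y`. -/
def PrimePeriod (y : ℕ → ℝ) (p : ℕ) : Prop :=
  IsLeast {q : ℕ | 1 ≤ q ∧ ∀ n, y (n + q) = y n} p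

/-- The zero equilibrium is stable and attracts every solution. -/
def ZeroGAS (k : ℕ) (A : ℝ) (β B : Fin (k + 1) → ℝ) : Prop :=
  (∀ ε > 0, ∃ δ > 0, ∀ y, IsSol k A β B y → (∀ j ≤ k, y j < δ) → ∀ n, y n < ε) ∧
    ∀ y, IsSol k A β B y → Tendsto y atTop (𝓝 0)

section
variable {k : ℕ} {A : ℝ} {β B : Fin (k + 1) → ℝ}

lemma bounds (hβ : ∀ i, 0 ≤ β i) (hB : ∀ i, 0 ≤ B i) (hA : 0 < A) (hAe : A = ∑ i, β i)
    {y : ℕ → ℝ} (hy : IsSol k A β B y) (M : ℝ) (hM : ∀ j ≤ k, y j ≤ M) (n : ℕ) :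
    0 ≤ y n ∧ y n ≤ M := by
  induction n using Nat.strong_induction_on with
  | _ n ih =>
    by_cases hn : n ≤ k
    · exact ⟨hy.1 n hn, hM n hn⟩
    · obtain ⟨m, rfl⟩ : ∃ m, n = m + k + 1 := ⟨n - k - 1, by omega⟩
      have h0 : ∀ i : Fin (k + 1), 0 ≤ y (m + k - i) ∧ y (m + k - i) ≤ M :=
        fun i => ih _ (by omega)
      have hM0 : 0 ≤ M := (hy.1 0 (Nat.zero_le _)).trans (hM 0 (Nat.zero_le _))
      have h1 : 0 ≤ ∑ i, β i * y (m + k - i) :=
        Finset.sum_nonneg fun i _ => mul_nonneg (hβ i) (h0 i).1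
      have h2 : 0 ≤ ∑ i, B i * y (m + k - i) :=
        Finset.sum_nonneg fun i _ => mul_nonneg (hB i) (h0 i).1
      have h3 : ∑ i, β i * y (m + k - i) ≤ A * M := by
        rw [hAe, Finset.sum_mul]
        exact Finset.sum_le_sum fun i _ => mul_le_mul_of_nonneg_left (h0 i).2 (hβ i)
      rw [hy.2 m]
      refine ⟨div_nonneg h1 (by linarith), ?_⟩
      rw [div_le_iff₀ (by linarith)]
      nlinarith [mul_nonneg hM0 h2]

/-- The additive monoid generated by the lags of the numerator. -/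
def Mo (β : Fin (k + 1) → ℝ) : AddSubmonoid ℕ :=
  AddSubmonoid.closure {s | ∃ i : Fin (k + 1), 0 < β i ∧ s = i + 1}

lemma periodic_sol (hβ : ∀ i, 0 ≤ β i) (hB : ∀ i, 0 ≤ B i) (hA : 0 < A) (hAe : A = ∑ i, β i)
    (hBs : 0 < ∑ i, B i)
    (h : ¬ ∃ i : Fin (k + 1), 0 < B i ∧ ∃ a ∈ Mo β, ∃ b ∈ Mo β, a = b + (i + 1)) :
    ∃ y p, IsSol k A β B y ∧ 2 ≤ p ∧ PrimePeriod y p := by
  classical
  let H : ℕ → Prop := fun n => ∃ a ∈ Mo β, ∃ b ∈ Mo β, n + b = a
  have hS : ∀ s ∈ Mo β, ∀ n, H (n + s) ↔ H n := by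
    intro s hs n
    constructor
    · rintro ⟨a, ha, b, hb, e⟩
      exact ⟨a, ha, s + b, (Mo β).add_mem hs hb, by omega⟩
    · rintro ⟨a, ha, b, hb, e⟩
      exact ⟨a + s, (Mo β).add_mem ha hs, b, hb, by omega⟩
  have hT : ∀ i : Fin (k + 1), 0 < B i → ∀ n, H (n + (i + 1)) → ¬ H n := by
    rintro i hi n ⟨a, ha, b, hb, e⟩ ⟨a', ha', b', hb', e'⟩
    exact h ⟨i, hi, a + b', (Mo β).add_mem ha hb', a' + b, (Mo β).add_mem ha' hb, by omega⟩
  have hgen : ∀ i : Fin (k + 1), 0 < β i → (i : ℕ) + 1 ∈ Mo β :=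
    fun i hi => AddSubmonoid.subset_closure ⟨i, hi, rfl⟩
  let y : ℕ → ℝ := fun n => if H n then 1 else 0
  have hyS : ∀ s ∈ Mo β, ∀ n, y (n + s) = y n := by
    intro s hs n
    simp only [y, hS s hs n]
  have hsol : IsSol k A β B y := by
    refine ⟨fun j _ => by simp only [y]; split_ifs <;> norm_num, fun n => ?_⟩
    have e : ∀ i : Fin (k + 1), n + k - i + (i + 1) = n + k + 1 := fun i => by
      have := i.2; omega
    have h1 : ∑ i, β i * y (n + k - i) = A * y (n + k + 1) := by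
      rw [hAe, Finset.sum_mul]
      refine Finset.sum_congr rfl fun i _ => ?_
      rcases (hβ i).eq_or_lt with h0 | h0
      · rw [← h0]; simp
      · rw [← e i, hyS _ (hgen i h0)]
    rw [h1]
    by_cases hH : H (n + k + 1)
    · have h2 : ∑ i, B i * y (n + k - i) = 0 := by
        refine Finset.sum_eq_zero fun i _ => ?_
        rcases (hB i).eq_or_lt with h0 | h0
        · rw [← h0]; simp
        · have := hT i h0 (n + k - i) (by rw [e i]; exact hH)
          simp only [y, this, if_false, mul_zero]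
      rw [h2, add_zero, mul_div_cancel_left₀ _ hA.ne']
    · simp only [y, hH, if_false, mul_zero, zero_div]
  obtain ⟨i0, hi0⟩ : ∃ i, 0 < β i := by
    by_contra hc
    push Not at hc
    have : ∑ i, β i ≤ 0 := Finset.sum_nonpos fun i _ => hc i
    linarith
  obtain ⟨i1, hi1⟩ : ∃ i, 0 < B i := by
    by_contra hc
    push Not at hc
    have : ∑ i, B i ≤ 0 := Finset.sum_nonpos fun i _ => hc i
    linarith
  have hex : ∃ q : ℕ, 1 ≤ q ∧ ∀ n, y (n + q) = y n := ⟨i0 + 1, by omega, hyS _ (hgen i0 hi0)⟩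
  refine ⟨y, Nat.find hex, hsol, ?_, Nat.find_spec hex, fun q hq => Nat.find_min' hex hq⟩
  by_contra hlt
  have h1 := (Nat.find_spec hex).1
  have h2 : Nat.find hex = 1 := by omega
  have h3 := (Nat.find_spec hex).2
  rw [h2] at h3
  have h4 : ∀ n, y n = y 0 := by
    intro n
    induction n with
    | zero => rfl
    | succ n ih => rw [h3, ih]
  have H0 : H 0 := ⟨0, (Mo β).zero_mem, 0, (Mo β).zero_mem, rfl⟩
  have H1 : ¬ H (0 + (i1 + 1)) := fun hh => hT i1 hi1 0 hh H0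
  have := h4 (0 + (i1 + 1))
  simp only [y, H0, H1, if_true, if_false] at this
  exact zero_ne_one this

lemma attract (hβ : ∀ i, 0 ≤ β i) (hB : ∀ i, 0 ≤ B i) (hA : 0 < A) (hAe : A = ∑ i, β i)
    (h : ∃ i : Fin (k + 1), 0 < B i ∧ ∃ a ∈ Mo β, ∃ b ∈ Mo β, a = b + (i + 1))
    {y : ℕ → ℝ} (hy : IsSol k A β B y) : Tendsto y atTop (𝓝 0) := by
  obtain ⟨M, hM⟩ : ∃ M, ∀ j ≤ k, y j ≤ M := by
    obtain ⟨M, hM⟩ := ((Set.finite_Iic k).image y).bddAbove
    exact ⟨M, fun j hj => hM ⟨j, hj, rfl⟩⟩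
  have hb := bounds hβ hB hA hAe hy M hM
  have hbd : IsBoundedUnder (· ≤ ·) atTop y := isBoundedUnder_of ⟨M, fun n => (hb n).2⟩
  have hbd' : IsBoundedUnder (· ≥ ·) atTop y := isBoundedUnder_of ⟨0, fun n => (hb n).1⟩
  have hco : IsCoboundedUnder (· ≤ ·) atTop y := hbd'.isCoboundedUnder_le
  set L := limsup y atTop with hL
  have key : L ≤ 0 := by
    by_contra hpos
    push Not at hpos
    obtain ⟨φ, hφ1, hφ2⟩ := exists_seq_tendsto_limsup hco hbd
    let U : Ultrafilter ℕ := Ultrafilter.of atTop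
    have hU : (U : Filter ℕ) ≤ atTop := Ultrafilter.of_le _
    have hz : ∀ j : ℕ, ∃ z, Tendsto (fun l => y (φ l - j)) U (𝓝 z) := by
      intro j
      obtain ⟨z, -, hz⟩ := (isCompact_Icc (a := (0 : ℝ)) (b := M)).ultrafilter_le_nhds
        (U.map fun l => y (φ l - j)) (by
          rw [Ultrafilter.coe_map, le_principal_iff, mem_map]
          exact Eventually.of_forall fun l => hb _)
      exact ⟨z, hz⟩
    choose z hz using hz
    have hφj : ∀ j : ℕ, Tendsto (fun l => φ l - j) U atTop := fun j =>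
      ((tendsto_sub_atTop_nat j).comp hφ2).mono_left hU
    have hz0 : ∀ j, 0 ≤ z j := fun j => ge_of_tendsto' (hz j) fun l => (hb _).1
    have hzL : ∀ j, z j ≤ L := by
      intro j
      refine le_of_forall_gt_imp_ge_of_dense fun c hc => ?_
      have : ∀ᶠ n in atTop, y n < c := eventually_lt_of_limsup_lt hc hbd
      exact le_of_tendsto (hz j) (((hφj j).eventually this).mono fun l hl => hl.le)
    have hz00 : z 0 = L := tendsto_nhds_unique (hz 0) (hφ1.mono_left hU)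
    have hrec : ∀ j, z j * (A + ∑ i, B i * z (j + (i + 1))) = ∑ i, β i * z (j + (i + 1)) := by
      intro j
      have t1 : Tendsto (fun l => y (φ l - j) * (A + ∑ i : Fin (k + 1), B i * y (φ l - (j + (i + 1)))))
          U (𝓝 (z j * (A + ∑ i, B i * z (j + (i + 1))))) :=
        (hz j).mul (tendsto_const_nhds.add
          (tendsto_finsetSum _ fun i _ => tendsto_const_nhds.mul (hz _)))
      have t2 : Tendsto (fun l => ∑ i : Fin (k + 1), β i * y (φ l - (j + (i + 1))))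
          U (𝓝 (∑ i, β i * z (j + (i + 1)))) :=
        tendsto_finsetSum _ fun i _ => tendsto_const_nhds.mul (hz _)
      refine tendsto_nhds_unique (t1.congr' ?_) t2
      filter_upwards [(hφ2.mono_left hU).eventually (eventually_ge_atTop (j + k + 1))] with l hl
      have e0 : φ l - j = (φ l - j - k - 1) + k + 1 := by omega
      have e1 : ∀ i : Fin (k + 1), φ l - (j + (i + 1)) = (φ l - j - k - 1) + k - i := fun i => by
        have := i.2; omega
      simp only [e1]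
      rw [e0, hy.2]
      have h2 : 0 ≤ ∑ i : Fin (k + 1), B i * y (φ l - j - k - 1 + k - i) :=
        Finset.sum_nonneg fun i _ => mul_nonneg (hB i) (hb _).1
      have e2 : φ l - j - k - 1 + k + 1 - k - 1 = φ l - j - k - 1 := by omega
      rw [e2]
      exact div_mul_cancel₀ _ (by linarith)
    have hstep : ∀ j, z j = L → ∀ i : Fin (k + 1),
        (0 < β i → z (j + (i + 1)) = L) ∧ (0 < B i → z (j + (i + 1)) = 0) := by
      intro j hj i
      have h1 := hrec j
      rw [hj] at h1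
      have h2 : 0 ≤ ∑ i, B i * z (j + (i + 1)) :=
        Finset.sum_nonneg fun i _ => mul_nonneg (hB i) (hz0 _)
      have h3 : 0 ≤ ∑ i, β i * (L - z (j + (i + 1))) :=
        Finset.sum_nonneg fun i _ => mul_nonneg (hβ i) (sub_nonneg.2 (hzL _))
      have h4 : ∑ i, β i * (L - z (j + (i + 1))) = A * L - ∑ i, β i * z (j + (i + 1)) := by
        rw [hAe, Finset.sum_mul, ← Finset.sum_sub_distrib]
        exact Finset.sum_congr rfl fun i _ => by ring
      have h5 : L * ∑ i, B i * z (j + (i + 1)) = 0 := by nlinarith [mul_nonneg hpos.le h2]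
      have h6 : ∑ i, B i * z (j + (i + 1)) = 0 := (mul_eq_zero.1 h5).resolve_left hpos.ne'
      have h7 : ∑ i, β i * (L - z (j + (i + 1))) = 0 := by rw [h4, ← h1, h6]; ring
      have h8 := (Finset.sum_eq_zero_iff_of_nonneg
        (fun i _ => mul_nonneg (hB i) (hz0 (j + (i + 1))))).1 h6 i (Finset.mem_univ _)
      have h9 := (Finset.sum_eq_zero_iff_of_nonneg
        (fun i _ => mul_nonneg (hβ i) (sub_nonneg.2 (hzL (j + (i + 1)))))).1 h7 i (Finset.mem_univ _)
      exact ⟨fun hi => by have := (mul_eq_zero.1 h9).resolve_left hi.ne'; linarith,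
        fun hi => (mul_eq_zero.1 h8).resolve_left hi.ne'⟩
    have hmo : ∀ m ∈ Mo β, ∀ j, z j = L → z (j + m) = L := by
      intro m hm
      induction hm using AddSubmonoid.closure_induction with
      | mem s hs =>
        obtain ⟨i, hi, rfl⟩ := hs
        exact fun j hj => (hstep j hj i).1 hi
      | zero => exact fun j hj => hj
      | add a b _ _ ha hb' => exact fun j hj => by rw [← add_assoc]; exact hb' _ (ha j hj)
    obtain ⟨i, hi, a, ha, b, hb', e⟩ := h
    have h1 := hmo a ha 0 hz00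
    have h2 := (hstep _ (hmo b hb' 0 hz00) i).2 hi
    rw [zero_add] at h1 h2
    rw [← e, h1] at h2
    exact hpos.ne' h2
  rw [Metric.tendsto_atTop]
  intro ε hε
  have : ∀ᶠ n in atTop, y n < ε := eventually_lt_of_limsup_lt (key.trans_lt hε) hbd
  obtain ⟨N, hN⟩ := eventually_atTop.1 this
  exact ⟨N, fun n hn => by
    rw [Real.dist_eq, sub_zero, abs_of_nonneg (hb n).1]; exact hN n hn⟩

end

theorem result (k : ℕ) (A : ℝ) (β B : Fin (k + 1) → ℝ)
    (hβ : ∀ i, 0 ≤ β i) (hB : ∀ i, 0 ≤ B i) (hA : 0 < A)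
    (_hβs : 0 < ∑ i, β i) (hBs : 0 < ∑ i, B i) (hAe : A = ∑ i, β i)
    (hno : ¬ ∃ y p, IsSol k A β B y ∧ 2 ≤ p ∧ PrimePeriod y p) :
    ZeroGAS k A β B := by
  refine ⟨fun ε hε => ⟨ε / 2, by linarith, fun y hy h0 n => ?_⟩, fun y hy => ?_⟩
  · have := (bounds hβ hB hA hAe hy (ε / 2) (fun j hj => (h0 j hj).le) n).2
    linarith
  · refine attract hβ hB hA hAe ?_ hy
    by_contra hc
    exact hno (periodic_sol hβ hB hA hAe hBs hc)

end Pool.Agent.Results.MP_2e7467_an.GAS
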